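import Pool.Agent.V5helper49.LR.Stm

/-!
# Project LR, job PERM: the order of the primes does not matter
-/

set_option autoImplicit false

namespace Pool.Agent.V5helper68.LR

open Finset Pool.Agent.V5helper49.LR

open Classical in
/-- the weight of the pair of classes `ω` -/
noncomputable def g (T U : Finset ℕ) (D p : ℕ) (ω : ℕ × ℕ) : ℝ :=
  if av T p ω.1 ∧ av T p ω.2 then
    (if p ∈ U then (1 / (p : ℝ)) ^ 2 else if ω.2 = (ω.1 + D) % p then 1 / (p : ℝ) else 0)
  else 0

theorem J_cons (T V B U : Finset ℕ) (D p : ℕ) (l : List ℕ) (K K' : Finset ℕ) :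
    J T V B U D (p :: l) K K' = ∑ ω ∈ range p ×ˢ range p, g T U D p ω *
      J T V B U D l (K ∪ hit V B p ω.1) (K' ∪ hit V B p ω.2) := by
  classical
  rw [J, Finset.sum_product]
  by_cases hp : p ∈ U
  · rw [if_pos hp, Finset.mul_sum]
    refine Finset.sum_congr rfl fun x _ => ?_
    rw [Finset.mul_sum]
    refine Finset.sum_congr rfl fun x' _ => ?_
    simp only [g, if_pos hp]
    split_ifs
    · rfl
    · rw [mul_zero, zero_mul]
  · rw [if_neg hp, Finset.mul_sum]
    refine Finset.sum_congr rfl fun x hx => ?_
    have hp0 : 0 < p := by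
      have := Finset.mem_range.1 hx
      omega
    rw [Finset.sum_eq_single ((x + D) % p)]
    · simp only [g, if_neg hp]
      split_ifs
      · rfl
      · rw [mul_zero, zero_mul]
    · intro x' _ hne
      simp only [g, if_neg hp, if_neg hne, ite_self, zero_mul]
    · intro h
      exact absurd (Finset.mem_range.2 (Nat.mod_lt _ hp0)) h

/-- **PERM** -/
theorem t_PERM : S_PERM := by
  intro T V B U D l l' h
  induction h with
  | nil => intro K K'; rfl
  | cons p _ ih =>
    intro K K'
    rw [J_cons, J_cons]
    exact Finset.sum_congr rfl fun ω _ => by rw [ih]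
  | swap p q l =>
    intro K K'
    rw [J_cons, J_cons]
    simp only [J_cons (l := l), Finset.mul_sum]
    rw [Finset.sum_comm]
    refine Finset.sum_congr rfl fun ω _ => Finset.sum_congr rfl fun η _ => ?_
    rw [mul_left_comm, Finset.union_right_comm K, Finset.union_right_comm K']
  | trans _ _ ih1 ih2 =>
    intro K K'
    rw [ih1, ih2]

end Pool.Agent.V5helper68.LR
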